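import Pool.Agent.V11223.NR.Corr
import Pool.Agent.V11223.NR.Time

/-!
# Efficient nonrepetitive colouring with `O(Δ²)` colours

The vertices are coloured one after the other with random colours. As soon as the coloured part
contains a repetitively coloured path, or two disjoint equally coloured paths with
`log₂ n + O(1)` vertices, the half of it which contains the new vertex is uncoloured. Both
structures are found by colour coding with polynomially many random hash functions. The sequence
of the structures found together with the final partial colouring determines the random colours,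
and with `64 Δ²` colours this leaves few random strings for which the procedure does not finish.
-/

namespace Pool.Agent.Results.MP_0272f9_lc.QuadraticColours

open Pool.Agent.NPC Pool.Agent.V11223.NR

/-- There are a constant `C`, a polynomial `p` and a function `f`, computed by a Turing machine in
polynomial time, such that for every graph `G` on `n ≥ 1` vertices, for all but a fraction `1 / n`
of the strings of `p n` random bits, `f` maps the adjacency matrix of `G` and the random string to
a nonrepetitive colouring of `G` with colours less than `C Δ²` (less than `1` if `G` has no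
edge). -/
theorem result : ∃ (C : ℕ) (p : Polynomial ℕ) (f : List (List Bool) × List Bool → List ℕ),
    Nonempty (Turing.TM2ComputableInPolyTime (bits : List (List Bool) × List Bool → List Bool)
      (bits : List ℕ → List Bool) f) ∧
    ∀ (n : ℕ), 1 ≤ n → ∀ (G : SimpleGraph (Fin n)) [DecidableRel G.Adj],
      (1 - 1 / (n : ℝ)) * 2 ^ p.eval n ≤
        ({r : Fin (p.eval n) → Bool |
          (f (mat G, List.ofFn r)).length = n ∧
          (∀ v : Fin n, (f (mat G, List.ofFn r)).getD v 0 < max 1 (C * G.maxDegree ^ 2)) ∧
          Nonrepetitive G fun v => (f (mat G, List.ofFn r)).getD v 0} :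
          Set (Fin (p.eval n) → Bool)).ncard := by
  classical
  refine ⟨64, 16 * Polynomial.X ^ 2 * (2 * Polynomial.X ^ 2 + 3 * Polynomial.X + 1) *
    Polynomial.X * (Polynomial.X + 3) + (Polynomial.X * (2 * Polynomial.X + 6) + Polynomial.X + 1) *
    (2 * Polynomial.X + 5), algo, H532.Poly.toTM V11223NR.algo_poly, ?_⟩
  intro n hn G _
  set P := (16 * Polynomial.X ^ 2 * (2 * Polynomial.X ^ 2 + 3 * Polynomial.X + 1) *
    Polynomial.X * (Polynomial.X + 3) + (Polynomial.X * (2 * Polynomial.X + 6) + Polynomial.X + 1) *
    (2 * Polynomial.X + 5) : Polynomial ℕ).eval n with hP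
  have hPe : P = pN n * n * (n + 3) + pm n * (2 * n + 5) := by
    rw [hP]
    simp only [Polynomial.eval_add, Polynomial.eval_mul, Polynomial.eval_pow, Polynomial.eval_X,
      Polynomial.eval_ofNat, Polynomial.eval_one]
    unfold pN pm
    ring
  have hq : pq n ≤ n + 3 := by
    unfold pq pL
    rw [Nat.size_le]
    have h1 := size_le_self n
    have h2 : n + 1 ≤ 2 ^ n := Nat.lt_two_pow_self
    rw [pow_add]
    omega
  have hb : pb (dmax (mat G)) ≤ 2 * n + 5 := by
    unfold pb
    have h1 : (dmax (mat G) ^ 2).size ≤ 2 * n := by
      rw [Nat.size_le]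
      have h2 : dmax (mat G) < 2 ^ n := lt_of_le_of_lt (dmax_le G) Nat.lt_two_pow_self
      calc dmax (mat G) ^ 2 < (2 ^ n) ^ 2 := Nat.pow_lt_pow_left h2 (by norm_num)
        _ = 2 ^ (2 * n) := by rw [← pow_mul, mul_comm]
    omega
  have hle : pN n * n * pq n + pm n * pb (dmax (mat G)) ≤ P := by
    rw [hPe]
    exact Nat.add_le_add (Nat.mul_le_mul_left _ hq) (Nat.mul_le_mul_left _ hb)
  have hmain := algo_correct hn G hle
  set Q : List Bool → Prop := fun r => (algo (mat G, r)).length = n ∧
      (∀ v : Fin n, (algo (mat G, r)).getD v 0 < max 1 (64 * G.maxDegree ^ 2)) ∧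
      Nonrepetitive G fun v => (algo (mat G, r)).getD v 0 with hQ
  change n * ((BL P).filter fun r => ¬ Q r).card ≤ 2 ^ P at hmain
  have h1 : ({r : Fin P → Bool | (algo (mat G, List.ofFn r)).length = n ∧
          (∀ v : Fin n, (algo (mat G, List.ofFn r)).getD v 0 < max 1 (64 * G.maxDegree ^ 2)) ∧
          Nonrepetitive G fun v => (algo (mat G, List.ofFn r)).getD v 0} :
          Set (Fin P → Bool)) =
      ((Finset.univ.filter fun r : Fin P → Bool => Q (List.ofFn r)) : Finset (Fin P → Bool)) := by
    ext r
    simp [hQ]
  rw [h1, Set.ncard_coe_finset]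
  have h2 : ((BL P).filter fun r => ¬ Q r) =
      (Finset.univ.filter fun r : Fin P → Bool => ¬ Q (List.ofFn r)).image List.ofFn := by
    ext r
    unfold BL
    simp only [Finset.mem_filter, Finset.mem_image, Finset.mem_univ, true_and]
    constructor
    · rintro ⟨⟨a, rfl⟩, h⟩; exact ⟨a, h, rfl⟩
    · rintro ⟨a, h, rfl⟩; exact ⟨⟨a, rfl⟩, h⟩
  rw [h2, Finset.card_image_of_injective _ List.ofFn_injective] at hmain
  have h3 : (Finset.univ.filter fun r : Fin P → Bool => Q (List.ofFn r)).card +
      (Finset.univ.filter fun r : Fin P → Bool => ¬ Q (List.ofFn r)).card = 2 ^ P := by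
    rw [Finset.card_filter_add_card_filter_not]
    simp
  have hn0 : (0 : ℝ) < n := by exact_mod_cast hn
  have h4 : (n : ℝ) * (Finset.univ.filter fun r : Fin P → Bool => ¬ Q (List.ofFn r)).card ≤
      2 ^ P := by exact_mod_cast hmain
  have h5 : ((Finset.univ.filter fun r : Fin P → Bool => Q (List.ofFn r)).card : ℝ) +
      (Finset.univ.filter fun r : Fin P → Bool => ¬ Q (List.ofFn r)).card = 2 ^ P := by
    exact_mod_cast h3
  have h6 : ((Finset.univ.filter fun r : Fin P → Bool => ¬ Q (List.ofFn r)).card : ℝ) ≤
      1 / n * 2 ^ P := by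
    rw [one_div, inv_mul_eq_div, le_div_iff₀ hn0]
    linarith
  linarith

end Pool.Agent.Results.MP_0272f9_lc.QuadraticColours
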